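import Mathlib

namespace Pool.Agent.Results.MP_b87ef1_co.ConjectureFalse

open Finset

/-- A family `F` of subsets of an `n`-element ground set is admissible if there are no three
pairwise distinct members `A, B, C` of `F` with `A ∪ B = C` or `A ∩ B = C`. -/
def Admissible {n : ℕ} (F : Finset (Finset (Fin n))) : Prop :=
  ∀ A ∈ F, ∀ B ∈ F, ∀ C ∈ F, A ≠ B → A ≠ C → B ≠ C → A ∪ B ≠ C ∧ A ∩ B ≠ C

/-- `f n` is the largest size of an admissible family of subsets of an `n`-element set. -/
noncomputable def f (n : ℕ) : ℕ :=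
  sSup {k : ℕ | ∃ F : Finset (Finset (Fin n)), Admissible F ∧ F.card = k}

/-- The conjectured value of `f n`. -/
def conjValue (n : ℕ) : ℚ :=
  if Even n then (n.choose (n / 2) : ℚ) + 1
  else ((n : ℚ) + 1) / (n : ℚ) * (n.choose ((n - 1) / 2) : ℚ)

/-- Any admissible family bounds `f n` from below. -/
lemma card_le_f {n : ℕ} (F : Finset (Finset (Fin n))) (hF : Admissible F) : F.card ≤ f n := by
  apply le_csSup
  · refine ⟨Fintype.card (Finset (Fin n)), ?_⟩
    rintro k ⟨G, -, rfl⟩
    exact Finset.card_le_univ G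
  · exact ⟨F, hF, rfl⟩

/-- The family for `n = 2 * m + 2`. -/
def fam (m : ℕ) : Finset (Finset (Fin (2 * m + 2))) :=
  univ.filter fun A => (0 ∉ A ∧ A.card = m) ∨ (0 ∈ A ∧ A.card = m + 2) ∨ A = {0} ∨ A = univ.erase 0

lemma fam_compl {m : ℕ} {A : Finset (Fin (2 * m + 2))} (hA : A ∈ fam m) : Aᶜ ∈ fam m := by
  have hc : A.card + Aᶜ.card = 2 * m + 2 := by
    rw [Finset.card_add_card_compl]; simp
  simp only [fam, mem_filter, mem_univ, true_and] at hA ⊢
  rcases hA with ⟨h0, h⟩ | ⟨h0, h⟩ | h | h
  · right; left; exact ⟨by simpa using h0, by omega⟩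
  · left; exact ⟨by simpa using h0, by omega⟩
  · right; right; right; subst h; ext i; simp
  · right; right; left; subst h; ext i; simp

/-- In the family, no two distinct members have a union equal to a third one. -/
lemma fam_union {m : ℕ} (hm : 1 ≤ m) {A B C : Finset (Fin (2 * m + 2))}
    (hA : A ∈ fam m) (hB : B ∈ fam m) (hC : C ∈ fam m) (hAC : A ≠ C) (hBC : B ≠ C) :
    A ∪ B ≠ C := by
  intro hU
  have hAs : A ⊂ C := by
    refine ⟨?_, ?_⟩
    · rw [← hU]; exact subset_union_left
    · intro h; exact hAC (Finset.Subset.antisymm (by rw [← hU]; exact subset_union_left) h)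
  have hBs : B ⊂ C := by
    refine ⟨?_, ?_⟩
    · rw [← hU]; exact subset_union_right
    · intro h; exact hBC (Finset.Subset.antisymm (by rw [← hU]; exact subset_union_right) h)
  have hcA := Finset.card_lt_card hAs
  have hcB := Finset.card_lt_card hBs
  have hcU : C.card ≤ A.card + B.card := by rw [← hU]; exact card_union_le A B
  have hE : (univ.erase (0 : Fin (2 * m + 2))).card = 2 * m + 1 := by
    rw [card_erase_of_mem (mem_univ _)]; simp
  have h0A : (0 : Fin (2 * m + 2)) ∈ A → (0 : Fin (2 * m + 2)) ∈ C := fun h => hAs.1 h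
  have h0B : (0 : Fin (2 * m + 2)) ∈ B → (0 : Fin (2 * m + 2)) ∈ C := fun h => hBs.1 h
  have h0C : (0 : Fin (2 * m + 2)) ∈ C → (0 : Fin (2 * m + 2)) ∈ A ∨ (0 : Fin (2 * m + 2)) ∈ B := by
    intro h; rw [← hU] at h; exact mem_union.1 h
  simp only [fam, mem_filter, mem_univ, true_and] at hA hB hC
  have key : ∀ D : Finset (Fin (2 * m + 2)),
      (0 ∉ D ∧ D.card = m) ∨ (0 ∈ D ∧ D.card = m + 2) ∨ D = {0} ∨ D = univ.erase 0 →
      (0 ∉ D ∧ D.card = m) ∨ (0 ∈ D ∧ D.card = m + 2) ∨ (0 ∈ D ∧ D.card = 1 ∧ D = {0}) ∨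
        (0 ∉ D ∧ D.card = 2 * m + 1) := by
    intro D hD
    rcases hD with h | h | h | h
    · exact Or.inl h
    · exact Or.inr (Or.inl h)
    · right; right; left; subst h; simp
    · right; right; right; subst h; exact ⟨by simp, hE⟩
  have kA := key A hA
  have kB := key B hB
  have kC := key C hC
  clear key
  rcases kC with ⟨c0, c1⟩ | ⟨c0, c1⟩ | ⟨c0, c1, c2⟩ | ⟨c0, c1⟩ <;>
  rcases kA with ⟨a0, a1⟩ | ⟨a0, a1⟩ | ⟨a0, a1, a2⟩ | ⟨a0, a1⟩ <;>
  rcases kB with ⟨b0, b1⟩ | ⟨b0, b1⟩ | ⟨b0, b1, b2⟩ | ⟨b0, b1⟩ <;>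
  first
  | omega
  | exact c0 (h0A a0)
  | exact c0 (h0B b0)
  | exact (h0C c0).elim a0 b0

lemma fam_admissible {m : ℕ} (hm : 1 ≤ m) : Admissible (fam m) := by
  intro A hA B hB C hC hAB hAC hBC
  refine ⟨fam_union hm hA hB hC hAC hBC, ?_⟩
  intro h
  have := fam_union hm (fam_compl hA) (fam_compl hB) (fam_compl hC)
    (fun h => hAC (compl_injective h))
    (fun h => hBC (compl_injective h))
  apply this
  rw [← h, Finset.compl_inter]

lemma le_card_fam {m : ℕ} (hm : 1 ≤ m) : (2 * m + 2).choose (m + 1) + 2 ≤ (fam m).card := by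
  classical
  have hE : (univ.erase (0 : Fin (2 * m + 2))).card = 2 * m + 1 := by
    rw [card_erase_of_mem (mem_univ _)]; simp
  set P : Finset (Finset (Fin (2 * m + 2))) := powersetCard m (univ.erase 0) with hP
  set Q : Finset (Finset (Fin (2 * m + 2))) := P.image compl with hQ
  have memP : ∀ A, A ∈ P ↔ (0 ∉ A ∧ A.card = m) := by
    intro A
    rw [hP, mem_powersetCard]
    constructor
    · rintro ⟨h1, h2⟩
      exact ⟨fun h => by simpa using h1 h, h2⟩
    · rintro ⟨h1, h2⟩
      exact ⟨fun i hi => by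
        rw [mem_erase]
        exact ⟨fun h => h1 (h ▸ hi), mem_univ _⟩, h2⟩
  have memQ : ∀ A, A ∈ Q → (0 ∈ A ∧ A.card = m + 2) := by
    intro A hA
    rw [hQ, mem_image] at hA
    obtain ⟨B, hB, rfl⟩ := hA
    rw [memP] at hB
    have hc : B.card + Bᶜ.card = 2 * m + 2 := by
      rw [Finset.card_add_card_compl]; simp
    exact ⟨by simpa using hB.1, by omega⟩
  have cP : P.card = (2 * m + 1).choose m := by
    rw [hP, card_powersetCard, hE]
  have cQ : Q.card = (2 * m + 1).choose m := by
    rw [hQ, card_image_of_injective _ compl_injective, cP]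
  have hch : (2 * m + 2).choose (m + 1) = (2 * m + 1).choose m + (2 * m + 1).choose m := by
    rw [Nat.choose_succ_succ' (2 * m + 1) m]
    congr 1
    exact (Nat.choose_symm_half m)
  have d1 : Disjoint P Q := by
    rw [Finset.disjoint_left]
    intro A h1 h2
    exact ((memP A).1 h1).1 (memQ A h2).1
  set R : Finset (Finset (Fin (2 * m + 2))) := {{0}, univ.erase 0} with hR
  have cR : R.card = 2 := by
    rw [hR, card_pair]
    intro h
    have : (0 : Fin (2 * m + 2)) ∈ univ.erase (0 : Fin (2 * m + 2)) := by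
      rw [← h]; simp
    simp at this
  have d2 : Disjoint (P ∪ Q) R := by
    rw [Finset.disjoint_left]
    intro A h1 h2
    rw [hR, mem_insert, mem_singleton] at h2
    rw [mem_union] at h1
    rcases h2 with rfl | rfl
    · rcases h1 with h1 | h1
      · exact ((memP _).1 h1).1 (by simp)
      · have := (memQ _ h1).2
        rw [card_singleton] at this
        omega
    · rcases h1 with h1 | h1
      · have := ((memP _).1 h1).2
        omega
      · have := (memQ _ h1).1
        simp at this
  have hsub : (P ∪ Q) ∪ R ⊆ fam m := by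
    intro A hA
    rw [mem_union, mem_union] at hA
    simp only [fam, mem_filter, mem_univ, true_and]
    rcases hA with (hA | hA) | hA
    · exact Or.inl ((memP A).1 hA)
    · exact Or.inr (Or.inl (memQ A hA))
    · rw [hR, mem_insert, mem_singleton] at hA
      exact Or.inr (Or.inr hA)
  calc (2 * m + 2).choose (m + 1) + 2 = ((P ∪ Q) ∪ R).card := by
        rw [card_union_of_disjoint d2, card_union_of_disjoint d1, cP, cQ, cR, hch]
    _ ≤ (fam m).card := card_le_card hsub

/-- The even case. -/
lemma even_case (n : ℕ) (hn : Even n) (h4 : 4 ≤ n) : n.choose (n / 2) + 2 ≤ f n := by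
  obtain ⟨k, rfl⟩ := hn
  obtain ⟨m, rfl⟩ : ∃ m, k = m + 1 := ⟨k - 1, by omega⟩
  have hm : 1 ≤ m := by omega
  have e1 : m + 1 + (m + 1) = 2 * m + 2 := by ring
  rw [e1]
  have e2 : (2 * m + 2) / 2 = m + 1 := by omega
  rw [e2]
  exact (le_card_fam hm).trans (card_le_f _ (fam_admissible hm))

/-- The family for `n = 7`: all sets of size two or five. -/
def fam7 : Finset (Finset (Fin 7)) := univ.filter fun A => A.card = 2 ∨ A.card = 5

lemma fam7_admissible : Admissible fam7 := by
  intro A hA B hB C hC hAB hAC hBC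
  simp only [fam7, mem_filter, mem_univ, true_and] at hA hB hC
  have h1 := Finset.card_union_add_card_inter A B
  have h7 : (A ∪ B).card ≤ 7 := by simpa using Finset.card_le_univ (A ∪ B)
  have hiA : (A ∩ B).card ≤ A.card := card_le_card inter_subset_left
  have hiB : (A ∩ B).card ≤ B.card := card_le_card inter_subset_right
  constructor
  · intro h
    have hAC' : A.card < C.card := by
      apply card_lt_card
      refine ⟨by rw [← h]; exact subset_union_left, fun h' => hAC ?_⟩
      exact Finset.Subset.antisymm (by rw [← h]; exact subset_union_left) h'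
    have hBC' : B.card < C.card := by
      apply card_lt_card
      refine ⟨by rw [← h]; exact subset_union_right, fun h' => hBC ?_⟩
      exact Finset.Subset.antisymm (by rw [← h]; exact subset_union_right) h'
    rw [h] at h1
    omega
  · intro h
    have hAC' : C.card < A.card := by
      apply card_lt_card
      refine ⟨by rw [← h]; exact inter_subset_left, fun h' => hAC ?_⟩
      exact Finset.Subset.antisymm h' (by rw [← h]; exact inter_subset_left)
    have hBC' : C.card < B.card := by
      apply card_lt_card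
      refine ⟨by rw [← h]; exact inter_subset_right, fun h' => hBC ?_⟩
      exact Finset.Subset.antisymm h' (by rw [← h]; exact inter_subset_right)
    rw [h] at h1
    omega

lemma card_fam7 : fam7.card = 42 := by
  decide +kernel

theorem result :
    (∀ n : ℕ, Even n → 4 ≤ n → conjValue n + 1 ≤ f n) ∧ conjValue 7 + 2 ≤ f 7 := by
  constructor
  · intro n hn h4
    have := even_case n hn h4
    rw [conjValue, if_pos hn]
    have h : ((n.choose (n / 2) + 2 : ℕ) : ℚ) ≤ (f n : ℚ) := by exact_mod_cast this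
    push_cast at h
    linarith
  · have h : 42 ≤ f 7 := by
      rw [← card_fam7]; exact card_le_f _ fam7_admissible
    have h' : (42 : ℚ) ≤ (f 7 : ℚ) := by exact_mod_cast h
    have hc : conjValue 7 = 40 := by
      rw [conjValue, if_neg (by decide)]
      norm_num [Nat.choose]
    rw [hc]
    linarith

end Pool.Agent.Results.MP_b87ef1_co.ConjectureFalse
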