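import Pool.Agent.Lib_MP_b87ef1_x77.Final

namespace Pool.Agent.Results.MP_b87ef1_co.ExactLarge

open Pool.Agent.Lib_MP_b87ef1_x77

/-- The exact value of `f n` for every `n ≥ 161`. -/
theorem result (n : ℕ) (hn : 161 ≤ n) :
    (Even n → f n = n.choose (n / 2) + 2) ∧
    (Odd n → f n = 2 * (n - 1).choose ((n - 1) / 2) ∧
      (f n : ℚ) = ((n : ℚ) + 1) / (n : ℚ) * (n.choose ((n - 1) / 2) : ℚ)) := by
  constructor
  · intro he
    obtain ⟨k, hk⟩ := he
    have h2 : n = 2 * k := by omega
    subst h2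
    rw [half_two_mul]
    exact even_exact (by omega)
  · intro ho
    obtain ⟨k, hk⟩ := ho
    subst hk
    have e1 : 2 * k + 1 - 1 = 2 * k := by omega
    rw [e1, half_two_mul]
    have h := odd_exact (k := k) (by omega)
    refine ⟨h, ?_⟩
    rw [h]
    have h1 := Nat.choose_mul_succ_eq (2 * k) k
    have e : 2 * k + 1 - k = k + 1 := by omega
    rw [e] at h1
    have h' : ((2 * k).choose k : ℚ) * (2 * k + 1) = ((2 * k + 1).choose k : ℚ) * (k + 1) := by
      exact_mod_cast h1
    push_cast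
    have hn0 : (2 * (k : ℚ) + 1) ≠ 0 := by positivity
    field_simp
    linarith

end Pool.Agent.Results.MP_b87ef1_co.ExactLarge
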